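import Pool.Agent.H651R3.P15

set_option autoImplicit false

open Set Filter Topology Metric

namespace Pool.Agent.Results.MP_129fce_an.PeakNotGevrey

/-- The class `A_α`: analytic in the open unit disc, continuous on the closed disc, and Lipschitz of
order `α` on the unit circle. -/
def InLip (α : ℝ) (f : ℂ → ℂ) : Prop :=
  DifferentiableOn ℂ f (ball 0 1) ∧ ContinuousOn f (closedBall 0 1) ∧
    ∃ C : ℝ, ∀ z ∈ sphere (0 : ℂ) 1, ∀ w ∈ sphere (0 : ℂ) 1, ‖f z - f w‖ ≤ C * ‖z - w‖ ^ α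

/-- Peak sets for `A_α`. -/
def IsPeakSet (α : ℝ) (E : Set ℂ) : Prop :=
  IsClosed E ∧ E ⊆ sphere 0 1 ∧
    ∃ f : ℂ → ℂ, InLip α f ∧ (∀ z ∈ E, f z = 1) ∧ ∀ z ∈ sphere (0 : ℂ) 1 \ E, ‖f z‖ < 1

/-- The Gevrey class `G_α`. -/
def InGevrey (α : ℝ) (f : ℂ → ℂ) : Prop :=
  DifferentiableOn ℂ f (ball 0 1) ∧
    ∃ C : ℝ, ∀ n : ℕ, ∀ z ∈ ball (0 : ℂ) 1,
      ‖iteratedDeriv n f z‖ ≤ C ^ (n + 1) * (n.factorial : ℝ) ^ (1 + 1 / α)

/-- `E` is a zero set for `G_α`: some `f` in `G_α`, not identically zero in the disc, has all its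
derivatives (extended continuously to the closed disc) equal to zero at each point of `E`. -/
def IsGevreyZeroSet (α : ℝ) (E : Set ℂ) : Prop :=
  ∃ f : ℂ → ℂ, InGevrey α f ∧ (∃ z ∈ ball (0 : ℂ) 1, f z ≠ 0) ∧
    ∀ z ∈ E, ∀ n : ℕ, Tendsto (iteratedDeriv n f) (𝓝[ball 0 1] z) (𝓝 0)

/-- a function with values in the disc of centre `1/2` and radius `1/2` peaks on the set `f = 1` -/
lemma peak_of {α : ℝ} {F : ℂ → ℂ} (h1 : DifferentiableOn ℂ F (ball 0 1))
    (h2 : ContinuousOn F (closedBall 0 1))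
    (h3 : ∃ C : ℝ, ∀ z ∈ closedBall (0:ℂ) 1, ∀ z' ∈ closedBall (0:ℂ) 1,
      ‖F z - F z'‖ ≤ C * ‖z - z'‖ ^ α)
    (h4 : ∀ z ∈ closedBall (0:ℂ) 1, ‖F z - 1 / 2‖ ≤ 1 / 2) :
    IsPeakSet α {ζ ∈ sphere (0:ℂ) 1 | F ζ = 1} := by
  have hsub : sphere (0:ℂ) 1 ⊆ closedBall 0 1 := sphere_subset_closedBall
  refine ⟨?_, fun z hz => hz.1, F, ⟨h1, h2, ?_⟩, fun z hz => hz.2, ?_⟩
  · exact (h2.mono hsub).preimage_isClosed_of_isClosed isClosed_sphere (isClosed_singleton (x := (1:ℂ)))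
  · obtain ⟨C, hC⟩ := h3
    exact ⟨C, fun z hz w hw => hC z (hsub hz) w (hsub hw)⟩
  · intro z hz
    apply H651P.norm_lt_of_half (h4 z (hsub hz.1))
    intro h
    exact hz.2 ⟨hz.1, h⟩

lemma not_zero_of {α : ℝ} (hα : 0 < α) {E : Set ℂ} (hE : IsClosed E) (hEs : E ⊆ sphere 0 1)
    (hne : E.Nonempty) (hD : H651P.Dvg α E) : ¬ IsGevreyZeroSet α E := by
  rintro ⟨f, hf, hnz, hflat⟩
  exact H651P.not_flat hα hE hEs hne hD hf hnz hflat

/-- For every `0 < α ≤ 1` there is a nonempty closed proper subset of the unit circle which is a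
peak set for `A_α` and is not a zero set for the Gevrey class `G_α`. -/
theorem result : ∀ α : ℝ, 0 < α → α ≤ 1 → ∃ E : Set ℂ,
    E.Nonempty ∧ E ≠ sphere 0 1 ∧ IsPeakSet α E ∧ ¬ IsGevreyZeroSet α E := by
  intro α hα0 hα1
  rcases hα1.lt_or_eq with hlt | rfl
  · obtain ⟨F, h1, h2, h3, h4, h5, h6, h7⟩ := H651P.main_lt hα0 hlt
    have hp := peak_of h1 h2 h3 h4
    refine ⟨_, h6, ?_, hp, not_zero_of hα0 hp.1 hp.2.1 h6 h7⟩
    intro h
    have hm : (-1 : ℂ) ∈ sphere (0:ℂ) 1 := by simp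
    rw [← h] at hm
    have := hm.2
    rw [h5] at this
    exact zero_ne_one this
  · have hp : IsPeakSet 1 {(1:ℂ)} := by
      refine ⟨isClosed_singleton, by simp, fun z => (1 + z) / 2, ⟨?_, ?_, 1, ?_⟩, ?_, ?_⟩
      · intro z _
        apply DifferentiableAt.differentiableWithinAt
        fun_prop
      · fun_prop
      · intro z _ w _
        have e : (1 + z) / 2 - (1 + w) / 2 = (z - w) / 2 := by ring
        rw [e, norm_div, Real.rpow_one, one_mul]
        have : ‖(2:ℂ)‖ = 2 := by norm_num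
        rw [this]
        linarith [norm_nonneg (z - w)]
      · intro z hz
        rw [mem_singleton_iff] at hz
        rw [hz]; norm_num
      · intro z hz
        have hz1 : ‖z‖ = 1 := by simpa using hz.1
        have hne : z ≠ 1 := by simpa using hz.2
        apply H651P.norm_lt_of_half
        · have e : (1 + z) / 2 - 1 / 2 = z / 2 := by ring
          rw [e, norm_div, hz1]; norm_num
        · intro h
          apply hne
          linear_combination 2 * h
    refine ⟨{1}, singleton_nonempty _, ?_, hp, not_zero_of one_pos hp.1 hp.2.1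
      (singleton_nonempty _) H651P.dvg_one⟩
    intro h
    have hm : (-1 : ℂ) ∈ sphere (0:ℂ) 1 := by simp
    rw [← h, mem_singleton_iff] at hm
    norm_num at hm

end Pool.Agent.Results.MP_129fce_an.PeakNotGevrey
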